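import Mathlib

/-!
# MP_ae9c87_an: a second-derivative estimate, uniform in the linear phase

`vv x = (x + i) / (x - i)`, `|vv x| = 1`.  For `h` with `|h| ≤ A`, `|h'| ≤ B` on `[1,2]`,
`‖∫_1^2 h(x) vv(x)^n e^{-isx} dx‖ ≤ (14 A + B) / √n` for all real `s`.
-/

set_option autoImplicit false
open MeasureTheory intervalIntegral

namespace Pool.Agent.Helper146_RJ

/-- The Cayley map. -/
noncomputable def vv (x : ℝ) : ℂ := ((x : ℂ) + Complex.I) / ((x : ℂ) - Complex.I)

theorem sub_ne (x : ℝ) : ((x : ℂ) - Complex.I) ≠ 0 := by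
  intro h
  have := congrArg Complex.im h
  simp at this

theorem add_ne (x : ℝ) : ((x : ℂ) + Complex.I) ≠ 0 := by
  intro h
  have := congrArg Complex.im h
  simp at this

theorem norm_vv (x : ℝ) : ‖vv x‖ = 1 := by
  unfold vv
  have h : ((x : ℂ) - Complex.I) = (starRingEnd ℂ) ((x : ℂ) + Complex.I) := by
    simp [sub_eq_add_neg]
  rw [h, norm_div, RCLike.norm_conj, div_self]
  exact norm_ne_zero_iff.mpr (add_ne x)

theorem one_add_sq (x : ℝ) : ((1 + x ^ 2 : ℝ) : ℂ) = ((x : ℂ) + Complex.I) * ((x : ℂ) - Complex.I) := by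
  push_cast
  ring_nf
  rw [Complex.I_sq]
  ring

theorem hasDerivAt_vv (x : ℝ) :
    HasDerivAt vv (Complex.I * ((-2 / (1 + x ^ 2) : ℝ) : ℂ) * vv x) x := by
  have h1 : HasDerivAt (fun y : ℝ => (y : ℂ) + Complex.I) 1 x :=
    (Complex.ofRealCLM.hasDerivAt (x := x)).add_const _
  have h2 : HasDerivAt (fun y : ℝ => (y : ℂ) - Complex.I) 1 x :=
    (Complex.ofRealCLM.hasDerivAt (x := x)).sub_const _
  have h3 := h1.div h2 (sub_ne x)
  refine h3.congr_deriv ?_
  unfold vv
  have e : ((-2 / (1 + x ^ 2) : ℝ) : ℂ) = -2 / (((x : ℂ) + Complex.I) * ((x : ℂ) - Complex.I)) := by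
    rw [← one_add_sq]; push_cast; ring
  rw [e]
  have ha := add_ne x
  have hs := sub_ne x
  field_simp
  ring

theorem continuous_vv : Continuous vv :=
  continuous_iff_continuousAt.mpr fun x => (hasDerivAt_vv x).continuousAt

theorem hasDerivAt_vv_pow (n : ℕ) (x : ℝ) :
    HasDerivAt (fun y => vv y ^ n) (Complex.I * ((-(2 * n) / (1 + x ^ 2) : ℝ) : ℂ) * vv x ^ n) x := by
  have h := (hasDerivAt_vv x).pow n
  refine h.congr_deriv ?_
  rcases n with _ | n
  · simp
  · simp only [Nat.add_sub_cancel, pow_succ]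
    push_cast
    ring

/-- The real part of `vv^n`. -/
noncomputable def CC (n : ℕ) (x : ℝ) : ℝ := (vv x ^ n).re

theorem abs_CC_le (n : ℕ) (x : ℝ) : |CC n x| ≤ 1 := by
  refine (Complex.abs_re_le_norm _).trans ?_
  rw [norm_pow, norm_vv, one_pow]

/-- The derivative of `CC n`. -/
noncomputable def CC' (n : ℕ) (x : ℝ) : ℝ :=
  (Complex.I * ((-(2 * n) / (1 + x ^ 2) : ℝ) : ℂ) * vv x ^ n).re

theorem hasDerivAt_CC (n : ℕ) (x : ℝ) : HasDerivAt (CC n) (CC' n x) x :=
  (Complex.reCLM.hasFDerivAt.comp_hasDerivAt x (hasDerivAt_vv_pow n x))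

theorem abs_CC'_le (n : ℕ) (x : ℝ) : |CC' n x| ≤ 2 * n := by
  refine (Complex.abs_re_le_norm _).trans ?_
  rw [norm_mul, norm_mul, norm_pow, norm_vv, one_pow, mul_one, Complex.norm_I, one_mul,
    Complex.norm_real, Real.norm_eq_abs, abs_div, abs_neg, abs_of_nonneg (by positivity),
    abs_of_pos (by positivity)]
  refine div_le_self (by positivity) ?_
  nlinarith [sq_nonneg x]

theorem continuous_CC' (n : ℕ) : Continuous (CC' n) := by
  unfold CC'
  refine Complex.continuous_re.comp ?_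
  refine (continuous_const.mul (Complex.continuous_ofReal.comp ?_)).mul (continuous_vv.pow n)
  refine continuous_const.div (by fun_prop) ?_
  intro x
  positivity

theorem continuous_CC (n : ℕ) : Continuous (CC n) :=
  Complex.continuous_re.comp (continuous_vv.pow n)

/-- The total phase velocity. -/
noncomputable def DD (n : ℕ) (s x : ℝ) : ℝ := -(2 * n) / (1 + x ^ 2) - s

/-- Its derivative. -/
noncomputable def DD' (n : ℕ) (x : ℝ) : ℝ := 4 * n * x / (1 + x ^ 2) ^ 2

/-- The oscillating factor. -/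
noncomputable def ee (n : ℕ) (s x : ℝ) : ℂ := vv x ^ n * Complex.exp (-(Complex.I * s * x))

theorem norm_ee (n : ℕ) (s x : ℝ) : ‖ee n s x‖ = 1 := by
  unfold ee
  rw [norm_mul, norm_pow, norm_vv, one_pow, one_mul, Complex.norm_exp]
  have : (-(Complex.I * s * x)).re = 0 := by simp
  rw [this, Real.exp_zero]

theorem hasDerivAt_ee (n : ℕ) (s x : ℝ) :
    HasDerivAt (ee n s) (Complex.I * (DD n s x : ℂ) * ee n s x) x := by
  have h1 := hasDerivAt_vv_pow n x
  have h2 : HasDerivAt (fun y : ℝ => Complex.exp (-(Complex.I * s * y)))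
      (Complex.exp (-(Complex.I * s * x)) * (-(Complex.I * s * 1))) x := by
    have h3 : HasDerivAt (fun y : ℝ => -(Complex.I * s * (y : ℂ))) (-(Complex.I * s * 1)) x :=
      ((Complex.ofRealCLM.hasDerivAt (x := x)).const_mul _).neg
    exact h3.cexp
  refine (h1.mul h2).congr_deriv ?_
  unfold ee DD
  push_cast
  ring

theorem hasDerivAt_DD (n : ℕ) (s x : ℝ) : HasDerivAt (DD n s) (DD' n x) x := by
  have hpos : (1 + x ^ 2 : ℝ) ≠ 0 := by positivity
  have h1 : HasDerivAt (fun y : ℝ => 1 + y ^ 2) (2 * x) x := by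
    simpa using (hasDerivAt_pow 2 x).const_add 1
  have h2 := ((h1.inv hpos).const_mul (-(2 * n) : ℝ)).sub_const s
  have h3 : DD n s = fun y => (-(2 * n) : ℝ) * (1 + y ^ 2)⁻¹ - s := by
    ext y; unfold DD; rw [div_eq_mul_inv]
  rw [h3]
  refine h2.congr_deriv ?_
  unfold DD'
  field_simp
  ring

theorem vdc (h h' : ℝ → ℝ) (hh : ∀ x, HasDerivAt h (h' x) x) (hc : Continuous h') (A B : ℝ)
    (hA : ∀ x ∈ Set.Icc (1:ℝ) 2, |h x| ≤ A) (hB : ∀ x ∈ Set.Icc (1:ℝ) 2, |h' x| ≤ B)
    (n : ℕ) (hn : 1 ≤ n) (s : ℝ) :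
    ‖∫ x in (1:ℝ)..2, (h x : ℂ) * ee n s x‖ ≤ (14 * A + B) / Real.sqrt n := by
  have hnR : (1 : ℝ) ≤ (n : ℝ) := by exact_mod_cast hn
  have hn0 : (0 : ℝ) < (n : ℝ) := by linarith
  set r : ℝ := Real.sqrt n with hr
  have hr0 : 0 < r := Real.sqrt_pos.mpr hn0
  have hr2 : r ^ 2 = n := Real.sq_sqrt hn0.le
  have hA0 : 0 ≤ A := (abs_nonneg _).trans (hA 1 ⟨le_refl _, by norm_num⟩)
  have hB0 : 0 ≤ B := (abs_nonneg _).trans (hB 1 ⟨le_refl _, by norm_num⟩)
  have hcontD : Continuous (DD n s) :=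
    continuous_iff_continuousAt.mpr fun x => (hasDerivAt_DD n s x).continuousAt
  have hcontD' : Continuous (DD' n) := by
    unfold DD'
    refine Continuous.div (by fun_prop) (by fun_prop) ?_
    intro x; positivity
  have hconth : Continuous h := continuous_iff_continuousAt.mpr fun x => (hh x).continuousAt
  have hconte : Continuous (ee n s) :=
    continuous_iff_continuousAt.mpr fun x => (hasDerivAt_ee n s x).continuousAt
  have hden : ∀ x, 0 < DD n s x ^ 2 + r ^ 2 := fun x => by positivity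
  -- `G = D / (D^2 + n)`
  let G : ℝ → ℝ := fun x => DD n s x / (DD n s x ^ 2 + r ^ 2)
  let G' : ℝ → ℝ := fun x => DD' n x * (r ^ 2 - DD n s x ^ 2) / (DD n s x ^ 2 + r ^ 2) ^ 2
  have hG : ∀ x, HasDerivAt G (G' x) x := by
    intro x
    have h1 := hasDerivAt_DD n s x
    have h2 : HasDerivAt (fun y => DD n s y ^ 2 + r ^ 2) (2 * DD n s x * DD' n x) x := by
      have := (h1.pow 2).add_const (r ^ 2)
      simpa using this
    refine (h1.div h2 (hden x).ne').congr_deriv ?_
    simp only [G']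
    congr 1
    ring
  have hcontG : Continuous G := continuous_iff_continuousAt.mpr fun x => (hG x).continuousAt
  have hcontG' : Continuous G' := by
    refine Continuous.div (by fun_prop) (by fun_prop) ?_
    intro x; have := hden x; positivity
  have hGle : ∀ x, |G x| ≤ 1 / (2 * r) := by
    intro x
    simp only [G]
    rw [abs_div, abs_of_pos (hden x), div_le_div_iff₀ (hden x) (by positivity)]
    have h1 : |DD n s x| ^ 2 = DD n s x ^ 2 := sq_abs _
    nlinarith [sq_nonneg (|DD n s x| - r), abs_nonneg (DD n s x)]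
  have hDpos : ∀ x ∈ Set.Icc (1:ℝ) 2, (8 / 25 : ℝ) * n ≤ DD' n x := by
    intro x hx
    unfold DD'
    rw [le_div_iff₀ (by positivity)]
    obtain ⟨hx1, hx2⟩ := hx
    have h1 : (8 / 25 : ℝ) * (1 + x ^ 2) ^ 2 ≤ 4 * x := by
      nlinarith [mul_nonneg (sub_nonneg.mpr hx1) (sub_nonneg.mpr hx2),
        mul_nonneg (mul_nonneg (sub_nonneg.mpr hx1) (sub_nonneg.mpr hx2)) (by linarith : (0:ℝ) ≤ x),
        mul_nonneg (mul_nonneg (sub_nonneg.mpr hx1) (sub_nonneg.mpr hx2)) (sq_nonneg x)]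
    nlinarith
  -- the dominating function
  let K : ℝ → ℝ := fun x => DD' n x / (DD n s x ^ 2 + r ^ 2)
  have hcontK : Continuous K := by
    refine Continuous.div hcontD' (by fun_prop) ?_
    intro x; exact (hden x).ne'
  have hKint : ∫ x in (1:ℝ)..2, K x ≤ Real.pi / r := by
    have hd : ∀ x ∈ Set.uIcc (1:ℝ) 2, HasDerivAt (fun y => Real.arctan (DD n s y / r) / r) (K x) x := by
      intro x _
      have h1 := ((hasDerivAt_DD n s x).div_const r).arctan.div_const r
      refine h1.congr_deriv ?_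
      simp only [K]
      have := hden x
      field_simp
      ring
    rw [integral_eq_sub_of_hasDerivAt hd (hcontK.intervalIntegrable _ _)]
    rw [← sub_div, div_le_div_iff_of_pos_right hr0]
    have h1 := Real.arctan_lt_pi_div_two (DD n s 2 / r)
    have h2 := Real.neg_pi_div_two_lt_arctan (DD n s 1 / r)
    linarith
  -- the remainder
  let R : ℝ → ℂ := fun x => Complex.I * ((h' x * G x + h x * G' x : ℝ) : ℂ) * ee n s x +
    ((h x * (r ^ 2 / (DD n s x ^ 2 + r ^ 2)) : ℝ) : ℂ) * ee n s x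
  have hcontR : Continuous R := by
    have h1 : Continuous (fun x => (h' x * G x + h x * G' x : ℝ)) := by fun_prop
    have h2 : Continuous (fun x => (h x * (r ^ 2 / (DD n s x ^ 2 + r ^ 2)) : ℝ)) := by
      refine hconth.mul (Continuous.div continuous_const (by fun_prop) ?_)
      intro x; exact (hden x).ne'
    exact ((continuous_const.mul (Complex.continuous_ofReal.comp h1)).mul hconte).add
      ((Complex.continuous_ofReal.comp h2).mul hconte)
  let F : ℝ → ℂ := fun x => -Complex.I * ((h x * G x : ℝ) : ℂ) * ee n s x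
  have hF : ∀ x ∈ Set.uIcc (1:ℝ) 2, HasDerivAt F ((h x : ℂ) * ee n s x - R x) x := by
    intro x _
    have h1 : HasDerivAt (fun y => ((h y * G y : ℝ) : ℂ)) ((h' x * G x + h x * G' x : ℝ) : ℂ) x :=
      ((hh x).mul (hG x)).ofReal_comp
    have h2 := ((h1.const_mul (-Complex.I)).mul (hasDerivAt_ee n s x))
    refine h2.congr_deriv ?_
    simp only [R, G]
    have hne : ((DD n s x ^ 2 + r ^ 2 : ℝ) : ℂ) ≠ 0 := by exact_mod_cast (hden x).ne'
    have e1 : ((h x * (DD n s x / (DD n s x ^ 2 + r ^ 2)) : ℝ) : ℂ) * (DD n s x : ℂ) =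
        (h x : ℂ) - ((h x * (r ^ 2 / (DD n s x ^ 2 + r ^ 2)) : ℝ) : ℂ) := by
      have : h x * (DD n s x / (DD n s x ^ 2 + r ^ 2)) * DD n s x =
          h x - h x * (r ^ 2 / (DD n s x ^ 2 + r ^ 2)) := by
        have := hden x
        field_simp
        ring
      rw [← Complex.ofReal_mul, this, Complex.ofReal_sub]
    have e2 : -Complex.I * ((h x * (DD n s x / (DD n s x ^ 2 + r ^ 2)) : ℝ) : ℂ) *
        (Complex.I * (DD n s x : ℂ) * ee n s x) =
        ((h x : ℂ) - ((h x * (r ^ 2 / (DD n s x ^ 2 + r ^ 2)) : ℝ) : ℂ)) * ee n s x := by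
      rw [← e1]
      have hI : Complex.I * Complex.I = -1 := Complex.I_mul_I
      linear_combination (-((h x * (DD n s x / (DD n s x ^ 2 + r ^ 2)) : ℝ) : ℂ) *
        (DD n s x : ℂ) * ee n s x) * hI
    rw [e2]
    ring
  have hFTC := integral_eq_sub_of_hasDerivAt hF
    (((Complex.continuous_ofReal.comp hconth).mul hconte).sub hcontR |>.intervalIntegrable _ _)
  have hint1 : IntervalIntegrable (fun x => (h x : ℂ) * ee n s x) volume 1 2 :=
    ((Complex.continuous_ofReal.comp hconth).mul hconte).intervalIntegrable _ _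
  rw [integral_sub hint1 (hcontR.intervalIntegrable _ _)] at hFTC
  have heq : ∫ x in (1:ℝ)..2, (h x : ℂ) * ee n s x = F 2 - F 1 + ∫ x in (1:ℝ)..2, R x := by
    rw [← hFTC]
    simp
  have hFn : ∀ x ∈ Set.Icc (1:ℝ) 2, ‖F x‖ ≤ A / (2 * r) := by
    intro x hx
    simp only [F]
    rw [norm_mul, norm_ee, mul_one, norm_mul, norm_neg, Complex.norm_I, one_mul,
      Complex.norm_real, Real.norm_eq_abs, abs_mul]
    calc |h x| * |G x| ≤ A * (1 / (2 * r)) :=
          mul_le_mul (hA x hx) (hGle x) (abs_nonneg _) hA0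
      _ = _ := by ring
  have hRn : ∀ x ∈ Set.Icc (1:ℝ) 2, ‖R x‖ ≤ B / (2 * r) + 33 / 8 * A * K x := by
    intro x hx
    have hD := hDpos x hx
    have hd := hden x
    have hD0 : 0 ≤ DD' n x := le_trans (by positivity) hD
    have hK0 : 0 ≤ K x := div_nonneg hD0 hd.le
    have hG'le : |G' x| ≤ K x := by
      simp only [G', K]
      rw [abs_div, abs_mul, abs_of_nonneg hD0, abs_of_pos (by positivity : (0:ℝ) <
        (DD n s x ^ 2 + r ^ 2) ^ 2), div_le_div_iff₀ (by positivity) hd]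
      have : |r ^ 2 - DD n s x ^ 2| ≤ DD n s x ^ 2 + r ^ 2 := by
        rw [abs_le]; constructor <;> nlinarith [sq_nonneg (DD n s x), sq_nonneg r]
      calc DD' n x * |r ^ 2 - DD n s x ^ 2| * (DD n s x ^ 2 + r ^ 2)
          ≤ DD' n x * (DD n s x ^ 2 + r ^ 2) * (DD n s x ^ 2 + r ^ 2) := by gcongr
        _ = _ := by ring
    have hlast : r ^ 2 / (DD n s x ^ 2 + r ^ 2) ≤ 25 / 8 * K x := by
      simp only [K]
      rw [← mul_div_assoc, div_le_div_iff_of_pos_right hd, hr2]
      linarith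
    simp only [R]
    refine (norm_add_le _ _).trans ?_
    rw [norm_mul, norm_ee, mul_one, norm_mul, Complex.norm_I, one_mul, norm_mul, norm_ee, mul_one,
      Complex.norm_real, Complex.norm_real, Real.norm_eq_abs, Real.norm_eq_abs]
    have h1 : |h' x * G x + h x * G' x| ≤ B * (1 / (2 * r)) + A * K x := by
      refine (abs_add_le _ _).trans ?_
      rw [abs_mul, abs_mul]
      exact add_le_add (mul_le_mul (hB x hx) (hGle x) (abs_nonneg _) hB0)
        (mul_le_mul (hA x hx) hG'le (abs_nonneg _) hA0)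
    have h2 : |h x * (r ^ 2 / (DD n s x ^ 2 + r ^ 2))| ≤ A * (25 / 8 * K x) := by
      rw [abs_mul, abs_of_nonneg (by positivity : (0:ℝ) ≤ r ^ 2 / (DD n s x ^ 2 + r ^ 2))]
      exact mul_le_mul (hA x hx) hlast (by positivity) hA0
    calc _ ≤ (B * (1 / (2 * r)) + A * K x) + A * (25 / 8 * K x) := add_le_add h1 h2
      _ = _ := by ring
  have hRint : ‖∫ x in (1:ℝ)..2, R x‖ ≤ B / (2 * r) + 33 / 8 * A * (Real.pi / r) := by
    have hle : ‖∫ x in (1:ℝ)..2, R x‖ ≤ ∫ x in (1:ℝ)..2, (B / (2 * r) + 33 / 8 * A * K x) := by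
      refine norm_integral_le_of_norm_le (by norm_num) ?_ ?_
      · refine Filter.Eventually.of_forall fun x hx => hRn x ⟨hx.1.le, hx.2⟩
      · exact (continuous_const.add (continuous_const.mul hcontK)).intervalIntegrable _ _
    refine hle.trans ?_
    have hint2 : IntervalIntegrable (fun x => 33 / 8 * A * K x) volume 1 2 :=
      (continuous_const.mul hcontK).intervalIntegrable _ _
    rw [integral_add (continuous_const.intervalIntegrable _ _) hint2, intervalIntegral.integral_const_mul,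
      intervalIntegral.integral_const]
    have : 33 / 8 * A * (∫ x in (1:ℝ)..2, K x) ≤ 33 / 8 * A * (Real.pi / r) := by gcongr
    have h21 : (2 - 1 : ℝ) • (B / (2 * r)) = B / (2 * r) := by norm_num
    rw [h21]
    linarith
  rw [heq]
  calc ‖F 2 - F 1 + ∫ x in (1:ℝ)..2, R x‖
      ≤ (A / (2 * r) + A / (2 * r)) + (B / (2 * r) + 33 / 8 * A * (Real.pi / r)) := by
        refine (norm_add_le _ _).trans (add_le_add ?_ hRint)
        exact (norm_sub_le _ _).trans (add_le_add (hFn 2 ⟨by norm_num, le_refl _⟩)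
          (hFn 1 ⟨le_refl _, by norm_num⟩))
    _ = (A * (1 + 33 / 8 * Real.pi) + B / 2) / r := by field_simp; ring
    _ ≤ (14 * A + B) / r := by
        rw [div_le_div_iff_of_pos_right hr0]
        have := Real.pi_lt_d2
        nlinarith

end Pool.Agent.Helper146_RJ
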