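import Mathlib
import Pool.Agent.Helper146_RJ.Vdc

/-!
# MP_ae9c87_an: nonlinear Riesz products and their weak limit

`WW l = ∏_{n ∈ l} (1 + CC n)` with rapidly growing `n`; the weak limit `μ` of `WW (LL k) dx` on `[1,2]`
has Fourier transform tending to zero, but `∫ CC (n_k) dμ ≥ 2/5` for all `k`.
-/

set_option autoImplicit false
open MeasureTheory intervalIntegral Filter Topology

namespace Pool.Agent.Helper146_RJ

/-- The sum of the frequencies. -/
def sm : List ℕ → ℕ
  | [] => 0
  | n :: l => n + sm l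

/-- The partial products. -/
noncomputable def WW : List ℕ → ℝ → ℝ
  | [] => fun _ => 1
  | n :: l => fun x => WW l x * (1 + CC n x)

/-- The derivatives of the partial products. -/
noncomputable def WW' : List ℕ → ℝ → ℝ
  | [] => fun _ => 0
  | n :: l => fun x => WW' l x * (1 + CC n x) + WW l x * CC' n x

theorem hasDerivAt_WW (l : List ℕ) (x : ℝ) : HasDerivAt (WW l) (WW' l x) x := by
  induction l with
  | nil => exact hasDerivAt_const x 1
  | cons n l ih =>
    have h : HasDerivAt (fun y => 1 + CC n y) (CC' n x) x := (hasDerivAt_CC n x).const_add 1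
    exact ih.mul h

theorem continuous_WW (l : List ℕ) : Continuous (WW l) :=
  continuous_iff_continuousAt.mpr fun x => (hasDerivAt_WW l x).continuousAt

theorem continuous_WW' (l : List ℕ) : Continuous (WW' l) := by
  induction l with
  | nil => exact continuous_const
  | cons n l ih =>
    exact (ih.mul (continuous_const.add (continuous_CC n))).add
      ((continuous_WW l).mul (continuous_CC' n))

theorem WW_nonneg (l : List ℕ) (x : ℝ) : 0 ≤ WW l x := by
  induction l with
  | nil => exact zero_le_one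
  | cons n l ih =>
    have := (abs_le.mp (abs_CC_le n x)).1
    exact mul_nonneg ih (by linarith)

theorem WW_le (l : List ℕ) (x : ℝ) : WW l x ≤ 2 ^ l.length := by
  induction l with
  | nil => simp [WW]
  | cons n l ih =>
    have h1 := (abs_le.mp (abs_CC_le n x)).2
    have h2 := (abs_le.mp (abs_CC_le n x)).1
    have h0 := WW_nonneg l x
    rw [List.length_cons, pow_succ]
    exact mul_le_mul ih (by linarith) (by linarith) (by positivity)

theorem abs_WW_le (l : List ℕ) (x : ℝ) : |WW l x| ≤ 2 ^ l.length := by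
  rw [abs_of_nonneg (WW_nonneg l x)]
  exact WW_le l x

theorem abs_WW'_le (l : List ℕ) (x : ℝ) : |WW' l x| ≤ 2 ^ (l.length + 1) * (sm l : ℝ) := by
  induction l with
  | nil => simp [WW', sm]
  | cons n l ih =>
    have h1 : |1 + CC n x| ≤ 2 := by
      refine (abs_add_le _ _).trans ?_
      have := abs_CC_le n x
      rw [abs_one]; linarith
    have h2 := abs_WW_le l x
    have h3 := abs_CC'_le n x
    have hexp : |WW' (n :: l) x| ≤ |WW' l x| * |1 + CC n x| + |WW l x| * |CC' n x| := by
      rw [← abs_mul, ← abs_mul]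
      exact abs_add_le _ _
    refine hexp.trans ?_
    rw [List.length_cons]
    have hsm : ((sm (n :: l) : ℕ) : ℝ) = (n : ℝ) + sm l := by simp [sm]
    rw [hsm]
    calc |WW' l x| * |1 + CC n x| + |WW l x| * |CC' n x|
        ≤ (2 ^ (l.length + 1) * (sm l : ℝ)) * 2 + 2 ^ l.length * (2 * n) := by
          refine add_le_add (mul_le_mul ih h1 (abs_nonneg _) (by positivity))
            (mul_le_mul h2 h3 (abs_nonneg _) (by positivity))
      _ ≤ 2 ^ (l.length + 1 + 1) * ((n : ℝ) + sm l) := by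
          have hn : (0 : ℝ) ≤ n := Nat.cast_nonneg n
          have hs : (0 : ℝ) ≤ (sm l : ℝ) := Nat.cast_nonneg _
          have hp : (0 : ℝ) < 2 ^ l.length := by positivity
          have e2 : (2:ℝ) ^ (l.length + 1 + 1) = 4 * 2 ^ l.length := by ring
          have e3 : (2:ℝ) ^ (l.length + 1) = 2 * 2 ^ l.length := by ring
          rw [e2, e3]
          nlinarith [mul_nonneg hp.le hn, mul_nonneg hp.le hs]

/-- The size parameter. -/
def KK (l : List ℕ) : ℕ := 14 * 2 ^ l.length + 2 ^ (l.length + 1) * sm l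

/-- The square root of the next frequency. -/
def QQ (l : List ℕ) : ℕ := (1 + 2 * sm l) * KK l * 2 ^ (l.length + 6)

/-- The next frequency. -/
def NN (l : List ℕ) : ℕ := QQ l ^ 2

theorem KK_pos (l : List ℕ) : 0 < KK l := by unfold KK; positivity

theorem QQ_pos (l : List ℕ) : 0 < QQ l := by
  unfold QQ; have := KK_pos l; positivity

theorem len_le_NN (l : List ℕ) : l.length ≤ NN l := by
  unfold NN
  have h1 : l.length < 2 ^ l.length := Nat.lt_two_pow_self
  have h2 : 2 ^ l.length ≤ QQ l := by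
    unfold QQ
    have hk := KK_pos l
    calc 2 ^ l.length ≤ 2 ^ (l.length + 6) := Nat.pow_le_pow_right (by norm_num) (by omega)
      _ = 1 * 2 ^ (l.length + 6) := by ring
      _ ≤ (1 + 2 * sm l) * KK l * 2 ^ (l.length + 6) := by
        apply Nat.mul_le_mul_right
        exact Nat.mul_pos (by omega) hk
  have h3 : QQ l ≤ QQ l ^ 2 := by
    rw [pow_two]; exact Nat.le_mul_of_pos_left _ (QQ_pos l)
  omega

/-- The error bound at stage `l`. -/
noncomputable def er (l : List ℕ) : ℝ := 1 / ((1 + 2 * (sm l : ℝ)) * 2 ^ (l.length + 6))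

theorem er_pos (l : List ℕ) : 0 < er l := by unfold er; positivity

theorem er_le (l : List ℕ) : er l ≤ 1 / 2 ^ (l.length + 6) := by
  unfold er
  refine one_div_le_one_div_of_le (by positivity) ?_
  have : (0 : ℝ) ≤ (sm l : ℝ) := Nat.cast_nonneg _
  have hp : (0 : ℝ) < 2 ^ (l.length + 6) := by positivity
  nlinarith [mul_nonneg this hp.le]

theorem key_ee (h h' : ℝ → ℝ) (hh : ∀ x, HasDerivAt h (h' x) x) (hc : Continuous h') (A B : ℝ)
    (hA : ∀ x ∈ Set.Icc (1:ℝ) 2, |h x| ≤ A) (hB : ∀ x ∈ Set.Icc (1:ℝ) 2, |h' x| ≤ B)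
    (l : List ℕ) (n : ℕ) (hn : NN l ≤ n) (s : ℝ) :
    ‖∫ x in (1:ℝ)..2, ((h x * WW l x : ℝ) : ℂ) * ee n s x‖ ≤ (A + B) * er l := by
  have hA0 : 0 ≤ A := (abs_nonneg _).trans (hA 1 ⟨le_refl _, by norm_num⟩)
  have hB0 : 0 ≤ B := (abs_nonneg _).trans (hB 1 ⟨le_refl _, by norm_num⟩)
  have hcont : Continuous h := continuous_iff_continuousAt.mpr fun x => (hh x).continuousAt
  have hd : ∀ x, HasDerivAt (fun y => h y * WW l y) (h' x * WW l x + h x * WW' l x) x :=
    fun x => (hh x).mul (hasDerivAt_WW l x)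
  have hcd : Continuous (fun x => h' x * WW l x + h x * WW' l x) :=
    (hc.mul (continuous_WW l)).add (hcont.mul (continuous_WW' l))
  have hQ : 1 ≤ NN l := Nat.one_le_pow _ _ (QQ_pos l)
  have hv := vdc _ _ hd hcd (A * 2 ^ l.length) (B * 2 ^ l.length + A * (2 ^ (l.length + 1) * sm l))
    (by
      intro x hx
      rw [abs_mul]
      exact mul_le_mul (hA x hx) (abs_WW_le l x) (abs_nonneg _) hA0)
    (by
      intro x hx
      refine (abs_add_le _ _).trans ?_
      rw [abs_mul, abs_mul]
      exact add_le_add (mul_le_mul (hB x hx) (abs_WW_le l x) (abs_nonneg _) hB0)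
        (mul_le_mul (hA x hx) (abs_WW'_le l x) (abs_nonneg _) hA0))
    n (hQ.trans hn) s
  refine hv.trans ?_
  have hsq : (QQ l : ℝ) ≤ Real.sqrt n := by
    rw [show (QQ l : ℝ) = Real.sqrt ((QQ l : ℝ) ^ 2) from (Real.sqrt_sq (Nat.cast_nonneg _)).symm]
    refine Real.sqrt_le_sqrt ?_
    have : ((NN l : ℕ) : ℝ) ≤ n := by exact_mod_cast hn
    unfold NN at this
    push_cast at this
    exact this
  have hQ0 : (0 : ℝ) < QQ l := by exact_mod_cast QQ_pos l
  have hK0 : (0 : ℝ) < KK l := by exact_mod_cast KK_pos l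
  have hnum : 14 * (A * 2 ^ l.length) + (B * 2 ^ l.length + A * (2 ^ (l.length + 1) * sm l)) ≤
      (A + B) * KK l := by
    unfold KK
    push_cast
    have hp : (0 : ℝ) < 2 ^ l.length := by positivity
    have hs : (0 : ℝ) ≤ (sm l : ℝ) := Nat.cast_nonneg _
    have h1 : 0 ≤ B * 2 ^ l.length := by positivity
    have h2 : 0 ≤ B * (2 ^ (l.length + 1) * (sm l : ℝ)) := by positivity
    nlinarith
  calc (14 * (A * 2 ^ l.length) + (B * 2 ^ l.length + A * (2 ^ (l.length + 1) * sm l))) /
        Real.sqrt n ≤ ((A + B) * KK l) / QQ l := by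
        refine div_le_div₀ (by positivity) hnum hQ0 hsq
    _ = (A + B) * er l := by
        unfold er QQ
        push_cast
        field_simp

/-- The linear phase. -/
noncomputable def es (s x : ℝ) : ℂ := Complex.exp (-(Complex.I * s * x))

theorem norm_es (s x : ℝ) : ‖es s x‖ = 1 := by
  unfold es
  rw [Complex.norm_exp]
  have : (-(Complex.I * s * x)).re = 0 := by simp
  rw [this, Real.exp_zero]

theorem continuous_es (s : ℝ) : Continuous (es s) := by
  unfold es; fun_prop

theorem es_zero (x : ℝ) : es 0 x = 1 := by simp [es]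

theorem CC_es (n : ℕ) (s x : ℝ) :
    ((CC n x : ℝ) : ℂ) * es s x = (1 / 2) * (ee n s x + (starRingEnd ℂ) (ee n (-s) x)) := by
  have h1 : (starRingEnd ℂ) (ee n (-s) x) = (starRingEnd ℂ) (vv x ^ n) * es s x := by
    unfold ee es
    rw [map_mul, ← Complex.exp_conj]
    congr 2
    simp
  have h2 : ee n s x = vv x ^ n * es s x := rfl
  rw [h1, h2]
  unfold CC
  rw [Complex.re_eq_add_conj]
  ring

theorem key_CC (h h' : ℝ → ℝ) (hh : ∀ x, HasDerivAt h (h' x) x) (hc : Continuous h') (A B : ℝ)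
    (hA : ∀ x ∈ Set.Icc (1:ℝ) 2, |h x| ≤ A) (hB : ∀ x ∈ Set.Icc (1:ℝ) 2, |h' x| ≤ B)
    (l : List ℕ) (n : ℕ) (hn : NN l ≤ n) (s : ℝ) :
    ‖∫ x in (1:ℝ)..2, ((h x * WW l x * CC n x : ℝ) : ℂ) * es s x‖ ≤ (A + B) * er l := by
  have hcont : Continuous h := continuous_iff_continuousAt.mpr fun x => (hh x).continuousAt
  have hce : ∀ s, Continuous (fun x => ((h x * WW l x : ℝ) : ℂ) * ee n s x) := by
    intro s
    refine (Complex.continuous_ofReal.comp (hcont.mul (continuous_WW l))).mul ?_
    exact continuous_iff_continuousAt.mpr fun x => (hasDerivAt_ee n s x).continuousAt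
  have e1 : ∫ x in (1:ℝ)..2, ((h x * WW l x * CC n x : ℝ) : ℂ) * es s x =
      (1 / 2) * ((∫ x in (1:ℝ)..2, ((h x * WW l x : ℝ) : ℂ) * ee n s x) +
        (starRingEnd ℂ) (∫ x in (1:ℝ)..2, ((h x * WW l x : ℝ) : ℂ) * ee n (-s) x)) := by
    have e2 : (starRingEnd ℂ) (∫ x in (1:ℝ)..2, ((h x * WW l x : ℝ) : ℂ) * ee n (-s) x) =
        ∫ x in (1:ℝ)..2, (starRingEnd ℂ) (((h x * WW l x : ℝ) : ℂ) * ee n (-s) x) := by
      rw [intervalIntegral.integral_of_le (by norm_num), intervalIntegral.integral_of_le (by norm_num)]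
      exact integral_conj.symm
    have i1 : IntervalIntegrable (fun x => ((h x * WW l x : ℝ) : ℂ) * ee n s x) volume 1 2 :=
      (hce s).intervalIntegrable _ _
    have i2 : IntervalIntegrable
        (fun x => (starRingEnd ℂ) (((h x * WW l x : ℝ) : ℂ) * ee n (-s) x)) volume 1 2 :=
      (Complex.continuous_conj.comp (hce (-s))).intervalIntegrable _ _
    rw [e2, ← integral_add i1 i2, ← intervalIntegral.integral_const_mul]
    congr 1
    ext x
    have : ((h x * WW l x * CC n x : ℝ) : ℂ) * es s x =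
        ((h x * WW l x : ℝ) : ℂ) * (((CC n x : ℝ) : ℂ) * es s x) := by push_cast; ring
    rw [this, CC_es, map_mul, Complex.conj_ofReal]
    ring
  rw [e1, norm_mul]
  have h1 := key_ee h h' hh hc A B hA hB l n hn s
  have h2 := key_ee h h' hh hc A B hA hB l n hn (-s)
  have h3 : ‖(1 / 2 : ℂ)‖ = 1 / 2 := by norm_num
  rw [h3]
  calc (1 / 2 : ℝ) * _ ≤ (1 / 2) * ((A + B) * er l + (A + B) * er l) := by
        gcongr
        refine (norm_add_le _ _).trans (add_le_add h1 ?_)
        rw [RCLike.norm_conj]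
        exact h2
    _ = _ := by ring

/-- The lists of frequencies. -/
def LL : ℕ → List ℕ
  | 0 => []
  | k + 1 => NN (LL k) :: LL k

theorem LL_length (k : ℕ) : (LL k).length = k := by
  induction k with
  | zero => rfl
  | succ k ih => simp [LL, ih]

/-- The frequencies. -/
def nn (k : ℕ) : ℕ := NN (LL k)

theorem nn_ge (k : ℕ) : k ≤ nn k := by
  have := len_le_NN (LL k)
  rw [LL_length] at this
  exact this

theorem nn_le_sum (j k : ℕ) (h : j < k) : nn j ≤ sm (LL k) := by
  induction k with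
  | zero => omega
  | succ k ih =>
    have e : sm (LL (k + 1)) = nn k + sm (LL k) := by
      simp [LL, nn, sm]
    rw [e]
    rcases Nat.lt_succ_iff_lt_or_eq.mp h with h1 | h1
    · have := ih h1
      omega
    · subst h1
      omega

/-- `∫_1^2 h WW_k e^{-isx} dx`. -/
noncomputable def II (h : ℝ → ℝ) (k : ℕ) (s : ℝ) : ℂ :=
  ∫ x in (1:ℝ)..2, ((h x * WW (LL k) x : ℝ) : ℂ) * es s x

theorem II_succ (h : ℝ → ℝ) (hcont : Continuous h) (k : ℕ) (s : ℝ) :
    II h (k + 1) s = II h k s +
      ∫ x in (1:ℝ)..2, ((h x * WW (LL k) x * CC (nn k) x : ℝ) : ℂ) * es s x := by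
  unfold II
  have h1 : Continuous (fun x => ((h x * WW (LL k) x : ℝ) : ℂ) * es s x) :=
    (Complex.continuous_ofReal.comp (hcont.mul (continuous_WW _))).mul (continuous_es s)
  have h2 : Continuous (fun x => ((h x * WW (LL k) x * CC (nn k) x : ℝ) : ℂ) * es s x) :=
    (Complex.continuous_ofReal.comp ((hcont.mul (continuous_WW _)).mul (continuous_CC _))).mul
      (continuous_es s)
  rw [← integral_add (h1.intervalIntegrable _ _) (h2.intervalIntegrable _ _)]
  congr 1
  ext x
  have : WW (LL (k + 1)) x = WW (LL k) x * (1 + CC (nn k) x) := rfl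
  rw [this]
  push_cast
  ring

theorem II_diff (h h' : ℝ → ℝ) (hh : ∀ x, HasDerivAt h (h' x) x) (hc : Continuous h') (A B : ℝ)
    (hA : ∀ x ∈ Set.Icc (1:ℝ) 2, |h x| ≤ A) (hB : ∀ x ∈ Set.Icc (1:ℝ) 2, |h' x| ≤ B)
    (k K : ℕ) (hkK : k ≤ K) (s : ℝ) :
    ‖II h K s - II h k s‖ ≤ (A + B) * (1 / 2 ^ (k + 5) - 1 / 2 ^ (K + 5)) := by
  have hA0 : 0 ≤ A := (abs_nonneg _).trans (hA 1 ⟨le_refl _, by norm_num⟩)
  have hB0 : 0 ≤ B := (abs_nonneg _).trans (hB 1 ⟨le_refl _, by norm_num⟩)
  have hcont : Continuous h := continuous_iff_continuousAt.mpr fun x => (hh x).continuousAt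
  induction K, hkK using Nat.le_induction with
  | base => simp
  | succ K hK ih =>
    rw [II_succ h hcont]
    have h1 := key_CC h h' hh hc A B hA hB (LL K) (nn K) le_rfl s
    have h2 : er (LL K) ≤ 1 / 2 ^ (K + 6) := by
      have := er_le (LL K)
      rwa [LL_length] at this
    calc ‖II h K s + _ - II h k s‖ ≤ ‖II h K s - II h k s‖ +
          ‖∫ x in (1:ℝ)..2, ((h x * WW (LL K) x * CC (nn K) x : ℝ) : ℂ) * es s x‖ := by
          rw [add_sub_right_comm]
          exact norm_add_le _ _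
      _ ≤ (A + B) * (1 / 2 ^ (k + 5) - 1 / 2 ^ (K + 5)) + (A + B) * (1 / 2 ^ (K + 6)) := by
          refine add_le_add ih (h1.trans ?_)
          gcongr
      _ = (A + B) * (1 / 2 ^ (k + 5) - 1 / 2 ^ (K + 1 + 5)) := by
          have e1 : (2:ℝ) ^ (K + 6) = 2 * 2 ^ (K + 5) := by ring
          have e2 : (2:ℝ) ^ (K + 1 + 5) = 2 * 2 ^ (K + 5) := by ring
          rw [e1]
          have hp : (0:ℝ) < 2 ^ (K + 5) := by positivity
          have hq : (0:ℝ) < 2 ^ (k + 5) := by positivity
          field_simp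
          ring

theorem II_diff' (h h' : ℝ → ℝ) (hh : ∀ x, HasDerivAt h (h' x) x) (hc : Continuous h') (A B : ℝ)
    (hA : ∀ x ∈ Set.Icc (1:ℝ) 2, |h x| ≤ A) (hB : ∀ x ∈ Set.Icc (1:ℝ) 2, |h' x| ≤ B)
    (k K : ℕ) (hkK : k ≤ K) (s : ℝ) :
    ‖II h K s - II h k s‖ ≤ (A + B) * (1 / 2 ^ (k + 5)) := by
  have hA0 : 0 ≤ A := (abs_nonneg _).trans (hA 1 ⟨le_refl _, by norm_num⟩)
  have hB0 : 0 ≤ B := (abs_nonneg _).trans (hB 1 ⟨le_refl _, by norm_num⟩)
  refine (II_diff h h' hh hc A B hA hB k K hkK s).trans ?_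
  have : (0 : ℝ) < 1 / 2 ^ (K + 5) := by positivity
  gcongr
  linarith

theorem II_zero_eq (h : ℝ → ℝ) (k : ℕ) :
    II h k 0 = ((∫ x in (1:ℝ)..2, h x * WW (LL k) x : ℝ) : ℂ) := by
  unfold II
  simp only [es_zero, mul_one]
  exact intervalIntegral.integral_ofReal

theorem mass_bound (k : ℕ) : |(∫ x in (1:ℝ)..2, WW (LL k) x) - 1| ≤ 1 / 32 := by
  have h := II_diff' (fun _ => 1) (fun _ => 0) (fun x => hasDerivAt_const x 1) continuous_const 1 0
    (by intro x _; simp) (by intro x _; simp) 0 k (Nat.zero_le _) 0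
  rw [II_zero_eq, II_zero_eq] at h
  have h0 : ∫ x in (1:ℝ)..2, (1:ℝ) * WW (LL 0) x = 1 := by
    simp [LL, WW]; norm_num
  rw [h0, ← Complex.ofReal_sub, Complex.norm_real, Real.norm_eq_abs] at h
  simp only [one_mul] at h
  norm_num at h ⊢
  exact h

theorem corr_bound (k K : ℕ) (hK : k + 1 ≤ K) :
    (2 / 5 : ℝ) ≤ ∫ x in (1:ℝ)..2, CC (nn k) x * WW (LL K) x := by
  have hreal : ∀ (z : ℂ) (r e : ℝ), z = ((r : ℝ) : ℂ) → ‖z‖ ≤ e → -e ≤ r := by
    intro z r e hz hn
    rw [hz, Complex.norm_real, Real.norm_eq_abs] at hn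
    linarith [(abs_le.mp hn).1]
  have hstep : ∀ K, k + 1 ≤ K → (2 / 5 + 1 / 2 ^ (K + 5) : ℝ) ≤
      ∫ x in (1:ℝ)..2, CC (nn k) x * WW (LL K) x := by
    intro K hK
    induction K, hK using Nat.le_induction with
    | base =>
      have e1 : ∫ x in (1:ℝ)..2, CC (nn k) x * WW (LL (k + 1)) x =
          (∫ x in (1:ℝ)..2, WW (LL k) x * CC (nn k) x) + ((1 / 2) * (∫ x in (1:ℝ)..2, WW (LL k) x) +
            (1 / 2) * ∫ x in (1:ℝ)..2, WW (LL k) x * CC (2 * nn k) x) := by
        have hw := continuous_WW (LL k)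
        have hc1 := continuous_CC (nn k)
        have hc2 := continuous_CC (2 * nn k)
        have i1 : IntervalIntegrable (fun x => (1 / 2) * WW (LL k) x) volume 1 2 :=
          (continuous_const.mul hw).intervalIntegrable _ _
        have i2 : IntervalIntegrable (fun x => (1 / 2) * (WW (LL k) x * CC (2 * nn k) x)) volume 1 2 :=
          (continuous_const.mul (hw.mul hc2)).intervalIntegrable _ _
        have i3 : IntervalIntegrable (fun x => WW (LL k) x * CC (nn k) x) volume 1 2 :=
          (hw.mul hc1).intervalIntegrable _ _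
        rw [← intervalIntegral.integral_const_mul, ← intervalIntegral.integral_const_mul,
          ← integral_add i1 i2, ← integral_add i3 (i1.add i2)]
        congr 1
        ext x
        have h1 : WW (LL (k + 1)) x = WW (LL k) x * (1 + CC (nn k) x) := rfl
        have h2 : CC (2 * nn k) x = 2 * CC (nn k) x ^ 2 - 1 := by
          have hz : ‖vv x ^ nn k‖ = 1 := by rw [norm_pow, norm_vv, one_pow]
          unfold CC
          rw [pow_mul']
          set z := vv x ^ nn k with hzdef
          have h3 : z.re ^ 2 + z.im ^ 2 = 1 := by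
            have := Complex.sq_norm z
            rw [hz, Complex.normSq_apply] at this
            nlinarith
          have h4 : (z ^ 2).re = z.re ^ 2 - z.im ^ 2 := by
            rw [pow_two, Complex.mul_re]; ring
          rw [h4]
          linarith
        rw [h1, h2]
        ring
      have hd1 := key_CC (fun _ => 1) (fun _ => 0) (fun x => hasDerivAt_const x 1) continuous_const
        1 0 (by intro x _; simp) (by intro x _; simp) (LL k) (nn k) le_rfl 0
      have hd2 := key_CC (fun _ => 1) (fun _ => 0) (fun x => hasDerivAt_const x 1) continuous_const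
        1 0 (by intro x _; simp) (by intro x _; simp) (LL k) (2 * nn k) (by unfold nn; omega) 0
      have he : er (LL k) ≤ 1 / 64 := by
        refine (er_le _).trans ?_
        refine one_div_le_one_div_of_le (by norm_num) ?_
        calc (64 : ℝ) = 2 ^ 6 := by norm_num
          _ ≤ 2 ^ ((LL k).length + 6) := pow_le_pow_right₀ (by norm_num) (by omega)
      have g1 := hreal _ (∫ x in (1:ℝ)..2, WW (LL k) x * CC (nn k) x) _
        (by simp only [es_zero, mul_one, one_mul]; exact intervalIntegral.integral_ofReal) hd1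
      have g2 := hreal _ (∫ x in (1:ℝ)..2, WW (LL k) x * CC (2 * nn k) x) _
        (by simp only [es_zero, mul_one, one_mul]; exact intervalIntegral.integral_ofReal) hd2
      have hm := (abs_le.mp (mass_bound k)).1
      rw [e1]
      have hpow : (1 : ℝ) / 2 ^ (k + 1 + 5) ≤ 1 / 64 := by
        refine one_div_le_one_div_of_le (by norm_num) ?_
        calc (64 : ℝ) = 2 ^ 6 := by norm_num
          _ ≤ 2 ^ (k + 1 + 5) := pow_le_pow_right₀ (by norm_num) (by omega)
      linarith
    | succ K hK ih =>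
      have e1 : ∫ x in (1:ℝ)..2, CC (nn k) x * WW (LL (K + 1)) x =
          (∫ x in (1:ℝ)..2, CC (nn k) x * WW (LL K) x) +
            ∫ x in (1:ℝ)..2, CC (nn k) x * WW (LL K) x * CC (nn K) x := by
        have hw := continuous_WW (LL K)
        have hc1 := continuous_CC (nn k)
        have hc2 := continuous_CC (nn K)
        have i1 : IntervalIntegrable (fun x => CC (nn k) x * WW (LL K) x) volume 1 2 :=
          (hc1.mul hw).intervalIntegrable _ _
        have i2 : IntervalIntegrable (fun x => CC (nn k) x * WW (LL K) x * CC (nn K) x) volume 1 2 :=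
          ((hc1.mul hw).mul hc2).intervalIntegrable _ _
        rw [← integral_add i1 i2]
        congr 1
        ext x
        have h1 : WW (LL (K + 1)) x = WW (LL K) x * (1 + CC (nn K) x) := rfl
        rw [h1]
        ring
      have hd1 := key_CC (CC (nn k)) (CC' (nn k)) (hasDerivAt_CC (nn k)) (continuous_CC' (nn k))
        1 (2 * nn k) (fun x _ => abs_CC_le _ x) (fun x _ => abs_CC'_le _ x) (LL K) (nn K) le_rfl 0
      have g1 := hreal _ (∫ x in (1:ℝ)..2, CC (nn k) x * WW (LL K) x * CC (nn K) x) _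
        (by simp only [es_zero, mul_one]; exact intervalIntegral.integral_ofReal) hd1
      have hsum : ((nn k : ℕ) : ℝ) ≤ (sm (LL K) : ℝ) := by
        exact_mod_cast nn_le_sum k K (by omega)
      have he : (1 + 2 * (nn k : ℝ)) * er (LL K) ≤ 1 / 2 ^ (K + 6) := by
        unfold er
        rw [LL_length]
        have hp : (0 : ℝ) < 1 + 2 * (sm (LL K) : ℝ) := by positivity
        rw [mul_one_div, div_le_div_iff₀ (by positivity) (by positivity)]
        nlinarith [pow_pos (by norm_num : (0:ℝ) < 2) (K + 6)]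
      rw [e1]
      have hpow1 : (1 : ℝ) / 2 ^ (K + 1 + 5) = 1 / 2 ^ (K + 6) := by
        rw [show K + 1 + 5 = K + 6 by ring]
      have hpow2 : (1 : ℝ) / 2 ^ (K + 5) = 1 / 2 ^ (K + 6) + 1 / 2 ^ (K + 6) := by
        have e6 : (2:ℝ) ^ (K + 6) = 2 * 2 ^ (K + 5) := by ring
        have hp : (0:ℝ) < 2 ^ (K + 5) := by positivity
        rw [e6]; field_simp; norm_num
      rw [hpow1]
      linarith
  have hpos : (0:ℝ) < 1 / 2 ^ (K + 5) := by positivity
  have := hstep K hK
  linarith

end Pool.Agent.Helper146_RJ
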