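import Mathlib
import Pool.Agent.Helper146_RJ.Seq

/-!
# MP_ae9c87_an: the limit measure
-/

set_option autoImplicit false
open MeasureTheory Filter Topology
open scoped ENNReal NNReal FourierTransform

namespace Pool.Agent.Helper146_RJ

/-- The density as a nonnegative real. -/
noncomputable def wN (k : ℕ) (x : ℝ) : ℝ≥0 := ⟨WW (LL k) x, WW_nonneg _ _⟩

theorem continuous_wN (k : ℕ) : Continuous (wN k) :=
  Continuous.subtype_mk (continuous_WW _) _

/-- The absolutely continuous approximants. -/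
noncomputable def mu0 (k : ℕ) : Measure ℝ :=
  (volume.restrict (Set.Icc (1:ℝ) 2)).withDensity (fun x => (wN k x : ℝ≥0∞))

instance (k : ℕ) : IsFiniteMeasure (mu0 k) := by
  unfold mu0
  refine isFiniteMeasure_withDensity ?_
  have hle : ∫⁻ x in Set.Icc (1:ℝ) 2, (wN k x : ℝ≥0∞) ≤ ∫⁻ _ in Set.Icc (1:ℝ) 2, ((2 ^ k : ℝ≥0) : ℝ≥0∞) := by
    refine lintegral_mono fun x => ?_
    have : wN k x ≤ (2 ^ k : ℝ≥0) := by
      rw [← NNReal.coe_le_coe]
      have := WW_le (LL k) x
      rw [LL_length] at this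
      push_cast
      exact this
    exact ENNReal.coe_le_coe.mpr this
  refine ne_of_lt (lt_of_le_of_lt hle ?_)
  rw [setLIntegral_const, Real.volume_Icc]
  exact ENNReal.mul_lt_top ENNReal.coe_lt_top ENNReal.ofReal_lt_top

theorem integral_mu0 (k : ℕ) (g : ℝ → ℂ) :
    ∫ x, g x ∂(mu0 k) = ∫ x in (1:ℝ)..2, ((WW (LL k) x : ℝ) : ℂ) * g x := by
  unfold mu0
  rw [integral_withDensity_eq_integral_smul (continuous_wN k).measurable,
    intervalIntegral.integral_of_le (by norm_num), integral_Icc_eq_integral_Ioc]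
  refine integral_congr_ae (Eventually.of_forall fun x => ?_)
  simp only [NNReal.smul_def, wN, NNReal.coe_mk]
  exact Complex.real_smul

/-- The approximants as finite measures. -/
noncomputable def muF (k : ℕ) : FiniteMeasure ℝ := ⟨mu0 k, inferInstance⟩

theorem mass_le (k : ℕ) : (muF k).mass ≤ 2 := by
  have h1 := integral_mu0 k (fun _ => 1)
  rw [integral_const] at h1
  simp only [mul_one] at h1
  have h2 : ∫ x in (1:ℝ)..2, ((WW (LL k) x : ℝ) : ℂ) = ((∫ x in (1:ℝ)..2, WW (LL k) x : ℝ) : ℂ) :=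
    intervalIntegral.integral_ofReal
  rw [h2] at h1
  have h3 : (mu0 k).real Set.univ = ∫ x in (1:ℝ)..2, WW (LL k) x := by
    have : (((mu0 k).real Set.univ : ℝ) : ℂ) = ((∫ x in (1:ℝ)..2, WW (LL k) x : ℝ) : ℂ) := by
      rw [← h1, Complex.real_smul, mul_one]
    exact_mod_cast this
  have h4 := (abs_le.mp (mass_bound k)).2
  rw [← NNReal.coe_le_coe]
  have h5 : (((muF k).mass : ℝ≥0) : ℝ) = (mu0 k).real Set.univ := rfl
  rw [h5, h3]
  push_cast
  linarith

theorem compl_null (k : ℕ) : muF k (Set.Icc (1:ℝ) 2)ᶜ = 0 := by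
  have h : mu0 k (Set.Icc (1:ℝ) 2)ᶜ = 0 := by
    unfold mu0
    rw [withDensity_apply _ measurableSet_Icc.compl, Measure.restrict_restrict measurableSet_Icc.compl,
      Set.compl_inter_self, Measure.restrict_empty, lintegral_zero_measure]
  have : ((muF k : Measure ℝ) (Set.Icc (1:ℝ) 2)ᶜ) = 0 := h
  exact (FiniteMeasure.null_iff_toMeasure_null _ _).mpr this

/-- The clipped version of a continuous function, as a bounded continuous function. -/
noncomputable def clipB (g : C(ℝ, ℂ)) : BoundedContinuousFunction ℝ ℂ :=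
  (BoundedContinuousFunction.mkOfCompact (g.comp ⟨((↑) : Set.Icc (1:ℝ) 2 → ℝ),
    continuous_subtype_val⟩)).compContinuous
      ⟨Set.projIcc (1:ℝ) 2 (by norm_num), continuous_projIcc⟩

theorem clipB_of_mem (g : C(ℝ, ℂ)) (x : ℝ) (hx : x ∈ Set.Icc (1:ℝ) 2) : clipB g x = g x := by
  have : clipB g x = g (Set.projIcc (1:ℝ) 2 (by norm_num) x) := rfl
  rw [this, Set.projIcc_of_mem _ hx]

theorem integral_clip (μ : Measure ℝ) (h0 : μ (Set.Icc (1:ℝ) 2)ᶜ = 0) (g : C(ℝ, ℂ)) :
    ∫ x, clipB g x ∂μ = ∫ x, g x ∂μ := by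
  refine integral_congr_ae ?_
  have : ∀ᵐ x ∂μ, x ∈ Set.Icc (1:ℝ) 2 := by
    rw [ae_iff]; exact h0
  filter_upwards [this] with x hx
  exact clipB_of_mem g x hx

theorem exists_limit : ∃ (μ : FiniteMeasure ℝ) (U : Ultrafilter ℕ),
    (U : Filter ℕ) ≤ atTop ∧ (μ : Measure ℝ) (Set.Icc (1:ℝ) 2)ᶜ = 0 ∧
    ∀ g : C(ℝ, ℂ), Tendsto (fun k => ∫ x, g x ∂(mu0 k)) U (𝓝 (∫ x, g x ∂(μ : Measure ℝ))) := by
  have hcomp := isCompact_setOfPred_finiteMeasure_le_of_isCompact (E := ℝ) 2
    (isCompact_Icc (a := (1:ℝ)) (b := 2))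
  let U : Ultrafilter ℕ := Ultrafilter.of atTop
  have hU : (U : Filter ℕ) ≤ atTop := Ultrafilter.of_le _
  obtain ⟨μ, hμ, hlim⟩ := hcomp.ultrafilter_le_nhds (U.map muF) (by
    rw [le_principal_iff, Ultrafilter.coe_map, mem_map]
    exact Filter.univ_mem' fun k => ⟨mass_le k, compl_null k⟩)
  have htend : Tendsto muF U (𝓝 μ) := hlim
  have h0 : (μ : Measure ℝ) (Set.Icc (1:ℝ) 2)ᶜ = 0 :=
    (FiniteMeasure.null_iff_toMeasure_null _ _).mp hμ.2
  refine ⟨μ, U, hU, h0, fun g => ?_⟩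
  have h1 := (FiniteMeasure.tendsto_iff_forall_integral_rclike_tendsto ℂ).mp htend (clipB g)
  rw [integral_clip _ h0] at h1
  refine h1.congr fun k => ?_
  exact integral_clip _ ((FiniteMeasure.null_iff_toMeasure_null _ _).mp (compl_null k)) g

theorem II_tendsto_zero (h : ℝ → ℝ) (k : ℕ) :
    Tendsto (fun t : ℝ => II h k (-t)) atTop (𝓝 0) := by
  let f : ℝ → ℂ := Set.indicator (Set.Ioc (1:ℝ) 2) (fun x => ((h x * WW (LL k) x : ℝ) : ℂ))
  have h1 := Real.tendsto_integral_exp_smul_cocompact f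
  have h2 : Tendsto (fun t : ℝ => -(t / (2 * Real.pi))) atTop (cocompact ℝ) := by
    have h3 : Tendsto (fun t : ℝ => t / (2 * Real.pi)) atTop atTop :=
      tendsto_id.atTop_div_const (by positivity)
    have h4 : Tendsto (fun t : ℝ => -(t / (2 * Real.pi))) atTop atBot :=
      tendsto_neg_atTop_atBot.comp h3
    exact h4.mono_right atBot_le_cocompact
  refine (h1.comp h2).congr fun t => ?_
  simp only [Function.comp]
  unfold II
  rw [intervalIntegral.integral_of_le (by norm_num), ← integral_indicator measurableSet_Ioc]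
  refine integral_congr_ae (Eventually.of_forall fun x => ?_)
  simp only [f]
  by_cases hx : x ∈ Set.Ioc (1:ℝ) 2
  · rw [Set.indicator_of_mem hx, Set.indicator_of_mem hx, Circle.smul_def, Real.fourierChar_apply,
      smul_eq_mul, mul_comm]
    congr 1
    unfold es
    congr 1
    push_cast
    have : (Real.pi : ℂ) ≠ 0 := by exact_mod_cast Real.pi_ne_zero
    field_simp
  · rw [Set.indicator_of_notMem hx, Set.indicator_of_notMem hx, smul_zero]

/-- **The measure.** -/
theorem exists_measure : ∃ μ : Measure ℝ, IsFiniteMeasure μ ∧ μ (Set.Icc (1:ℝ) 2)ᶜ = 0 ∧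
    (∀ h h' : ℝ → ℝ, (∀ x, HasDerivAt h (h' x) x) → Continuous h' →
      Tendsto (fun t : ℝ => ∫ x, ((h x : ℝ) : ℂ) * Complex.exp (Complex.I * t * x) ∂μ)
        atTop (𝓝 0)) ∧
    (∀ k, (2 / 5 : ℝ) ≤ ∫ x, CC (nn k) x ∂μ) := by
  obtain ⟨μ, U, hU, h0, hlim⟩ := exists_limit
  refine ⟨μ, inferInstance, h0, ?_, ?_⟩
  · intro h h' hh hc
    have hcont : Continuous h := continuous_iff_continuousAt.mpr fun x => (hh x).continuousAt
    obtain ⟨A, hA⟩ := isCompact_Icc.exists_bound_of_continuousOn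
      (hcont.continuousOn (s := Set.Icc (1:ℝ) 2))
    obtain ⟨B, hB⟩ := isCompact_Icc.exists_bound_of_continuousOn
      (hc.continuousOn (s := Set.Icc (1:ℝ) 2))
    have hA0 : 0 ≤ A := (norm_nonneg _).trans (hA 1 ⟨le_refl _, by norm_num⟩)
    have hB0 : 0 ≤ B := (norm_nonneg _).trans (hB 1 ⟨le_refl _, by norm_num⟩)
    have hkey : ∀ (k : ℕ) (t : ℝ), ‖(∫ x, ((h x : ℝ) : ℂ) * Complex.exp (Complex.I * t * x) ∂(μ : Measure ℝ)) -
        II h k (-t)‖ ≤ (A + B) * (1 / 2 ^ (k + 5)) := by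
      intro k t
      let g : C(ℝ, ℂ) := ⟨fun x => ((h x : ℝ) : ℂ) * Complex.exp (Complex.I * t * x),
        (Complex.continuous_ofReal.comp hcont).mul (by fun_prop)⟩
      have hg : ∀ K, ∫ x, g x ∂(mu0 K) = II h K (-t) := by
        intro K
        rw [integral_mu0]
        unfold II
        congr 1
        ext x
        show ((WW (LL K) x : ℝ) : ℂ) * (((h x : ℝ) : ℂ) * Complex.exp (Complex.I * t * x)) = _
        have : es (-t) x = Complex.exp (Complex.I * t * x) := by
          unfold es; congr 1; push_cast; ring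
        rw [this]; push_cast; ring
      have h1 : Tendsto (fun K => II h K (-t) - II h k (-t)) U
          (𝓝 ((∫ x, g x ∂(μ : Measure ℝ)) - II h k (-t))) := by
        refine Tendsto.sub_const ?_ _
        exact (hlim g).congr hg
      refine le_of_tendsto h1.norm ?_
      refine hU ?_
      filter_upwards [eventually_ge_atTop k] with K hK
      exact II_diff' h h' hh hc A B (fun x hx => hA x hx) (fun x hx => hB x hx) k K hK (-t)
    rw [Metric.tendsto_atTop]
    intro ε hε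
    obtain ⟨k, hk⟩ : ∃ k : ℕ, (A + B) * (1 / 2 ^ (k + 5)) < ε / 2 := by
      have : Tendsto (fun k : ℕ => (A + B) * (1 / 2 ^ (k + 5) : ℝ)) atTop (𝓝 ((A + B) * 0)) := by
        refine Tendsto.const_mul _ ?_
        have h3 : Tendsto (fun k : ℕ => (1 / 2 : ℝ) ^ (k + 5)) atTop (𝓝 0) :=
          (tendsto_pow_atTop_nhds_zero_of_lt_one (by norm_num) (by norm_num)).comp
            (tendsto_add_atTop_nat 5)
        refine h3.congr fun k => ?_
        rw [one_div_pow]
      rw [mul_zero] at this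
      exact (this.eventually (gt_mem_nhds (half_pos hε))).exists
    obtain ⟨N, hN⟩ := Metric.tendsto_atTop.mp (II_tendsto_zero h k) (ε / 2) (half_pos hε)
    refine ⟨N, fun t ht => ?_⟩
    have h1 := hN t ht
    rw [dist_zero_right] at h1 ⊢
    have h2 := hkey k t
    calc ‖∫ x, ((h x : ℝ) : ℂ) * Complex.exp (Complex.I * t * x) ∂(μ : Measure ℝ)‖
        = ‖((∫ x, ((h x : ℝ) : ℂ) * Complex.exp (Complex.I * t * x) ∂(μ : Measure ℝ)) -
          II h k (-t)) + II h k (-t)‖ := by rw [sub_add_cancel]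
      _ ≤ _ := norm_add_le _ _
      _ < ε := by linarith
  · intro k
    let g : C(ℝ, ℂ) := ⟨fun x => ((CC (nn k) x : ℝ) : ℂ),
      Complex.continuous_ofReal.comp (continuous_CC _)⟩
    have h1 := hlim g
    have h2 : ∀ K, (∫ x, g x ∂(mu0 K)) = ((∫ x in (1:ℝ)..2, CC (nn k) x * WW (LL K) x : ℝ) : ℂ) := by
      intro K
      rw [integral_mu0, ← intervalIntegral.integral_ofReal]
      congr 1
      ext x
      show ((WW (LL K) x : ℝ) : ℂ) * ((CC (nn k) x : ℝ) : ℂ) = _
      push_cast; ring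
    have h3 : (∫ x, g x ∂(μ : Measure ℝ)) = ((∫ x, CC (nn k) x ∂(μ : Measure ℝ) : ℝ) : ℂ) :=
      integral_ofReal
    rw [h3] at h1
    have h4 := (Complex.continuous_re.tendsto _).comp (h1.congr h2)
    simp only [Function.comp_def, Complex.ofReal_re] at h4
    refine ge_of_tendsto h4 (hU ?_)
    filter_upwards [eventually_ge_atTop (k + 1)] with K hK
    exact corr_bound k K hK

end Pool.Agent.Helper146_RJ
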