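import Mathlib
import Pool.Agent.Helper146_RJ.Meas

/-!
# MP_ae9c87_an: the unitary group on `L²(μ)`
-/

set_option autoImplicit false
open MeasureTheory Filter Topology
open scoped ENNReal NNReal

namespace Pool.Agent.Helper146_RJ

/-- Bounded continuous functions. -/
abbrev BC : Type := BoundedContinuousFunction ℝ ℂ

section decay

variable {μ : Measure ℝ} [IsFiniteMeasure μ]

theorem norm_exp_I (t x : ℝ) : ‖Complex.exp (Complex.I * t * x)‖ = 1 := by
  rw [Complex.norm_exp]
  have : (Complex.I * t * x).re = 0 := by simp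
  rw [this, Real.exp_zero]

theorem tendsto_of_integrable (h0 : μ (Set.Icc (1:ℝ) 2)ᶜ = 0)
    (hd : ∀ h h' : ℝ → ℝ, (∀ x, HasDerivAt h (h' x) x) → Continuous h' →
      Tendsto (fun t : ℝ => ∫ x, ((h x : ℝ) : ℂ) * Complex.exp (Complex.I * t * x) ∂μ)
        atTop (𝓝 0)) (F : ℝ → ℂ) (hF : Integrable F μ) :
    Tendsto (fun t : ℝ => ∫ x, F x * Complex.exp (Complex.I * t * x) ∂μ) atTop (𝓝 0) := by
  have hae : ∀ᵐ x ∂μ, x ∈ Set.Icc (1:ℝ) 2 := by rw [ae_iff]; exact h0
  have hec : ∀ t : ℝ, Continuous (fun x : ℝ => Complex.exp (Complex.I * t * x)) := by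
    intro t; fun_prop
  have hmul : ∀ (G : ℝ → ℂ) (t : ℝ), Integrable G μ →
      Integrable (fun x => G x * Complex.exp (Complex.I * t * x)) μ := by
    intro G t hG
    refine hG.mul_bdd (c := 1) (hec t).aestronglyMeasurable (Eventually.of_forall fun x => ?_)
    exact (norm_exp_I t x).le
  set M : ℝ := μ.real Set.univ with hM
  have hM0 : 0 ≤ M := measureReal_nonneg
  rw [Metric.tendsto_atTop]
  intro ε hε
  obtain ⟨G, hG1, hG2⟩ := hF.exists_boundedContinuous_integral_sub_le (by positivity : 0 < ε / 4)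
  set δ : ℝ := ε / (8 * (M + 1)) with hδ
  have hδ0 : 0 < δ := by positivity
  obtain ⟨P, hP⟩ := exists_polynomial_near_of_continuousOn 1 2 (fun x => (G x).re)
    (Complex.continuous_re.comp G.continuous).continuousOn δ hδ0
  obtain ⟨Q, hQ⟩ := exists_polynomial_near_of_continuousOn 1 2 (fun x => (G x).im)
    (Complex.continuous_im.comp G.continuous).continuousOn δ hδ0
  have hPd := hd (fun x => P.eval x) (fun x => P.derivative.eval x) (fun x => P.hasDerivAt x)
    P.derivative.continuous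
  have hQd := hd (fun x => Q.eval x) (fun x => Q.derivative.eval x) (fun x => Q.hasDerivAt x)
    Q.derivative.continuous
  obtain ⟨N1, hN1⟩ := Metric.tendsto_atTop.mp hPd (ε / 8) (by positivity)
  obtain ⟨N2, hN2⟩ := Metric.tendsto_atTop.mp hQd (ε / 8) (by positivity)
  refine ⟨max N1 N2, fun t ht => ?_⟩
  have h1 := hN1 t (le_trans (le_max_left _ _) ht)
  have h2 := hN2 t (le_trans (le_max_right _ _) ht)
  rw [dist_zero_right] at h1 h2 ⊢
  let R : ℝ → ℂ := fun x => ((P.eval x : ℝ) : ℂ) + Complex.I * ((Q.eval x : ℝ) : ℂ)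
  have hRb : ∀ᵐ x ∂μ, ‖G x - R x‖ ≤ 2 * δ := by
    filter_upwards [hae] with x hx
    have e : G x - R x = (((G x).re - P.eval x : ℝ) : ℂ) +
        Complex.I * (((G x).im - Q.eval x : ℝ) : ℂ) := by
      apply Complex.ext <;> simp [R]
    rw [e]
    refine (norm_add_le _ _).trans ?_
    rw [norm_mul, Complex.norm_I, one_mul, Complex.norm_real, Complex.norm_real,
      Real.norm_eq_abs, Real.norm_eq_abs, abs_sub_comm, abs_sub_comm (G x).im]
    have := hP x hx
    have := hQ x hx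
    linarith
  have hintp : ∀ p : Polynomial ℝ, Integrable (fun x => ((p.eval x : ℝ) : ℂ)) μ := by
    intro p
    obtain ⟨C, hC⟩ := isCompact_Icc.exists_bound_of_continuousOn
      (p.continuous.continuousOn (s := Set.Icc (1:ℝ) 2))
    refine Integrable.mono' (integrable_const C)
      (Complex.continuous_ofReal.comp p.continuous).aestronglyMeasurable ?_
    filter_upwards [hae] with x hx
    rw [Complex.norm_real]
    exact hC x hx
  have hR : Integrable R μ := (hintp P).add ((hintp Q).const_mul Complex.I)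
  have e1 : ∫ x, F x * Complex.exp (Complex.I * t * x) ∂μ =
      (∫ x, (F x - G x) * Complex.exp (Complex.I * t * x) ∂μ) +
      ((∫ x, (G x - R x) * Complex.exp (Complex.I * t * x) ∂μ) +
      ((∫ x, ((P.eval x : ℝ) : ℂ) * Complex.exp (Complex.I * t * x) ∂μ) +
        Complex.I * ∫ x, ((Q.eval x : ℝ) : ℂ) * Complex.exp (Complex.I * t * x) ∂μ)) := by
    have i1 := hmul _ t (hintp P)
    have i2 : Integrable (fun x => Complex.I * (((Q.eval x : ℝ) : ℂ) *
        Complex.exp (Complex.I * t * x))) μ := (hmul _ t (hintp Q)).const_mul _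
    have i3 : Integrable (fun x => (G x - R x) * Complex.exp (Complex.I * t * x)) μ :=
      hmul _ t (hG2.sub hR)
    have i4 : Integrable (fun x => (F x - G x) * Complex.exp (Complex.I * t * x)) μ :=
      hmul _ t (hF.sub hG2)
    have i12 : Integrable (fun x => ((P.eval x : ℝ) : ℂ) * Complex.exp (Complex.I * t * x) +
        Complex.I * (((Q.eval x : ℝ) : ℂ) * Complex.exp (Complex.I * t * x))) μ := i1.add i2
    have i123 : Integrable (fun x => (G x - R x) * Complex.exp (Complex.I * t * x) +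
        (((P.eval x : ℝ) : ℂ) * Complex.exp (Complex.I * t * x) +
        Complex.I * (((Q.eval x : ℝ) : ℂ) * Complex.exp (Complex.I * t * x)))) μ := i3.add i12
    rw [← integral_const_mul, ← integral_add i1 i2, ← integral_add i3 i12, ← integral_add i4 i123]
    refine integral_congr_ae (Eventually.of_forall fun x => ?_)
    simp only [R]
    ring
  have b1 : ‖∫ x, (F x - G x) * Complex.exp (Complex.I * t * x) ∂μ‖ ≤ ε / 4 := by
    refine (norm_integral_le_integral_norm _).trans ?_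
    refine le_trans (le_of_eq ?_) hG1
    refine integral_congr_ae (Eventually.of_forall fun x => ?_)
    simp only [norm_mul, norm_exp_I, mul_one]
  have b2 : ‖∫ x, (G x - R x) * Complex.exp (Complex.I * t * x) ∂μ‖ ≤ ε / 4 := by
    have := norm_integral_le_of_norm_le_const (μ := μ) (C := 2 * δ)
      (f := fun x => (G x - R x) * Complex.exp (Complex.I * t * x)) (by
        filter_upwards [hRb] with x hx
        rw [norm_mul, norm_exp_I, mul_one]
        exact hx)
    refine this.trans ?_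
    rw [← hM, hδ]
    have : 2 * (ε / (8 * (M + 1))) * M = (ε / 4) * (M / (M + 1)) := by field_simp; ring
    rw [this]
    have h3 : M / (M + 1) ≤ 1 := by rw [div_le_one (by linarith)]; linarith
    nlinarith
  rw [e1]
  have hn : ∀ a b c d : ℂ, ‖a + (b + (c + Complex.I * d))‖ ≤ ‖a‖ + ‖b‖ + ‖c‖ + ‖d‖ := by
    intro a b c d
    have n1 := norm_add_le a (b + (c + Complex.I * d))
    have n2 := norm_add_le b (c + Complex.I * d)
    have n3 := norm_add_le c (Complex.I * d)
    have n4 : ‖Complex.I * d‖ = ‖d‖ := by rw [norm_mul, Complex.norm_I, one_mul]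
    linarith
  refine lt_of_le_of_lt (hn _ _ _ _) ?_
  linarith

end decay

section oper

variable (μ : Measure ℝ) [IsFiniteMeasure μ]

/-- Multiplication operators on `L²`. -/
noncomputable def ML : BC →L[ℂ] (Lp ℂ 2 μ →L[ℂ] Lp ℂ 2 μ) :=
  ((ContinuousLinearMap.mul ℂ ℂ).holderL μ ∞ 2 2).comp (BoundedContinuousFunction.toLp ∞ μ ℂ)

theorem ML_ae (c : BC) (z : Lp ℂ 2 μ) : (ML μ c z : ℝ → ℂ) =ᵐ[μ] fun x => c x * z x := by
  have h1 : ML μ c z = (ContinuousLinearMap.mul ℂ ℂ).holder 2
      (BoundedContinuousFunction.toLp ∞ μ ℂ c) z := rfl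
  rw [h1]
  have h2 := (ContinuousLinearMap.mul ℂ ℂ).coeFn_holder (r := 2)
    (BoundedContinuousFunction.toLp ∞ μ ℂ c) z
  have h3 := BoundedContinuousFunction.coeFn_toLp (E := ℂ) ∞ μ ℂ c
  filter_upwards [h2, h3] with x hx2 hx3
  rw [hx2, hx3]
  rfl

theorem ML_mul (c d : BC) : ML μ (c * d) = ML μ c * ML μ d := by
  ext1 z
  refine Lp.ext ?_
  have h1 := ML_ae μ (c * d) z
  have h2 := ML_ae μ c (ML μ d z)
  have h3 := ML_ae μ d z
  have h4 : (ML μ c * ML μ d) z = ML μ c (ML μ d z) := rfl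
  rw [h4]
  filter_upwards [h1, h2, h3] with x hx1 hx2 hx3
  rw [hx1, hx2, hx3, BoundedContinuousFunction.mul_apply, mul_assoc]

theorem ML_one : ML μ 1 = 1 := by
  ext1 z
  refine Lp.ext ?_
  filter_upwards [ML_ae μ 1 z] with x hx
  rw [hx]
  simp

theorem ML_pow (c : BC) (n : ℕ) : ML μ (c ^ n) = (ML μ c) ^ n := by
  induction n with
  | zero => rw [pow_zero, pow_zero, ML_one]
  | succ n ih => rw [pow_succ, pow_succ, ML_mul, ih]

theorem norm_ML_le (c : BC) (hc : ∀ x, ‖c x‖ ≤ 1) : ‖ML μ c‖ ≤ 1 := by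
  refine ContinuousLinearMap.opNorm_le_bound _ zero_le_one fun z => ?_
  rw [one_mul]
  refine Lp.norm_le_norm_of_ae_le ?_
  filter_upwards [ML_ae μ c z] with x hx
  rw [hx, norm_mul]
  exact mul_le_of_le_one_left (norm_nonneg _) (hc x)

/-- The clipping function. -/
noncomputable def clip (x : ℝ) : ℝ := Set.projIcc (1:ℝ) 2 (by norm_num) x

theorem clip_mem (x : ℝ) : clip x ∈ Set.Icc (1:ℝ) 2 := (Set.projIcc (1:ℝ) 2 (by norm_num) x).2

theorem clip_of_mem (x : ℝ) (hx : x ∈ Set.Icc (1:ℝ) 2) : clip x = x := by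
  unfold clip
  rw [Set.projIcc_of_mem _ hx]

theorem continuous_clip : Continuous clip := continuous_subtype_val.comp continuous_projIcc

/-- The generator `-i x`, clipped. -/
noncomputable def gen : BC := BoundedContinuousFunction.ofNormedAddCommGroup
  (fun x => -(Complex.I * (clip x : ℂ)))
  (continuous_const.mul (Complex.continuous_ofReal.comp continuous_clip)).neg 2 (by
    intro x
    rw [norm_neg, norm_mul, Complex.norm_I, one_mul, Complex.norm_real, Real.norm_eq_abs, abs_le]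
    have := clip_mem x
    constructor <;> linarith [this.1, this.2])

theorem gen_apply (x : ℝ) : gen x = -(Complex.I * (clip x : ℂ)) := rfl

/-- Evaluation as a ring homomorphism. -/
noncomputable def ev (x : ℝ) : BC →+* ℂ where
  toFun f := f x
  map_one' := rfl
  map_mul' _ _ := rfl
  map_zero' := rfl
  map_add' _ _ := rfl

/-- The group `exp (-i t x)`. -/
noncomputable def Et (t : ℝ) : BC := NormedSpace.exp ((t : ℂ) • gen)

theorem Et_apply (t x : ℝ) : Et t x = Complex.exp ((t : ℂ) * -(Complex.I * (clip x : ℂ))) := by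
  have hc : Continuous (ev x) := (BoundedContinuousFunction.evalCLM ℂ x).continuous
  have := NormedSpace.map_exp (ev x) hc ((t : ℂ) • gen)
  rw [Complex.exp_eq_exp_ℂ]
  exact this

theorem Et_cont : Continuous Et := by
  unfold Et
  exact NormedSpace.exp_continuous.comp (by fun_prop)

theorem Et_add (s t : ℝ) : Et (s + t) = Et s * Et t := by
  ext x
  rw [BoundedContinuousFunction.mul_apply, Et_apply, Et_apply, Et_apply, ← Complex.exp_add]
  push_cast
  ring_nf

theorem Et_zero : Et 0 = 1 := by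
  ext x
  rw [Et_apply]
  simp

theorem norm_Et_apply (t x : ℝ) : ‖Et t x‖ = 1 := by
  rw [Et_apply, Complex.norm_exp]
  have : ((t : ℂ) * -(Complex.I * (clip x : ℂ))).re = 0 := by simp
  rw [this, Real.exp_zero]

theorem norm_Et_le (t : ℝ) : ‖Et t‖ ≤ 1 :=
  (BoundedContinuousFunction.norm_le zero_le_one).mpr fun x => (norm_Et_apply t x).le

/-- The semigroup. -/
noncomputable def TT (t : ℝ) : Lp ℂ 2 μ →L[ℂ] Lp ℂ 2 μ := ML μ (Et t)

theorem integrable_Et : IntegrableOn (fun t : ℝ => ((Real.exp (-t) : ℝ) : ℂ) • Et t)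
    (Set.Ioi 0) := by
  have hcont : Continuous (fun t : ℝ => ((Real.exp (-t) : ℝ) : ℂ) • Et t) := by
    have h2 : Continuous (fun t : ℝ => ((Real.exp (-t) : ℝ) : ℂ)) := by fun_prop
    exact h2.smul Et_cont
  have hdom : IntegrableOn (fun t : ℝ => Real.exp (-1 * t)) (Set.Ioi 0) :=
    integrableOn_exp_mul_Ioi (by norm_num) 0
  refine Integrable.mono' hdom hcont.aestronglyMeasurable (Eventually.of_forall fun t => ?_)
  rw [norm_smul, Complex.norm_real, Real.norm_eq_abs, abs_of_pos (Real.exp_pos _), neg_one_mul]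
  exact mul_le_of_le_one_right (Real.exp_pos _).le (norm_Et_le t)

/-- The cogenerator symbol. -/
noncomputable def bb : BC := 1 - (2 : ℂ) • ∫ t in Set.Ioi (0 : ℝ), ((Real.exp (-t) : ℝ) : ℂ) • Et t

theorem bb_apply (x : ℝ) : bb x = vv (clip x) := by
  have hev := (BoundedContinuousFunction.evalCLM ℂ x).integral_comp_comm integrable_Et
  have h1 : (∫ t in Set.Ioi (0 : ℝ), ((Real.exp (-t) : ℝ) : ℂ) • Et t) x =
      ∫ t in Set.Ioi (0 : ℝ), Complex.exp ((-(1 + Complex.I * (clip x : ℂ))) * (t : ℂ)) := by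
    refine Eq.trans hev.symm ?_
    refine integral_congr_ae (Eventually.of_forall fun t => ?_)
    simp only [BoundedContinuousFunction.evalCLM_apply, BoundedContinuousFunction.smul_apply,
      Et_apply, smul_eq_mul]
    rw [Complex.ofReal_exp, ← Complex.exp_add]
    congr 1
    push_cast
    ring
  have h2 : bb x = 1 - 2 * (∫ t in Set.Ioi (0 : ℝ), ((Real.exp (-t) : ℝ) : ℂ) • Et t) x := rfl
  rw [h2, h1, integral_exp_mul_complex_Ioi (by simp)]
  simp only [Complex.ofReal_zero, mul_zero, Complex.exp_zero]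
  unfold vv
  have e1 : (1 + Complex.I * (clip x : ℂ)) = Complex.I * ((clip x : ℂ) - Complex.I) := by
    linear_combination (1 : ℂ) * Complex.I_mul_I
  have hs := sub_ne (clip x)
  have hI := Complex.I_ne_zero
  rw [neg_div_neg_eq, e1, eq_div_iff hs]
  field_simp
  linear_combination (-2 : ℂ) * Complex.I_sq

theorem cogen (z : Lp ℂ 2 μ) :
    z - (2 : ℂ) • ∫ t in Set.Ioi (0 : ℝ), ((Real.exp (-t) : ℝ) : ℂ) • TT μ t z = ML μ bb z := by
  have h1 : ∫ t in Set.Ioi (0 : ℝ), ((Real.exp (-t) : ℝ) : ℂ) • TT μ t z =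
      ML μ (∫ t in Set.Ioi (0 : ℝ), ((Real.exp (-t) : ℝ) : ℂ) • Et t) z := by
    have := ((ML μ).flip z).integral_comp_comm integrable_Et
    refine Eq.trans ?_ this
    refine integral_congr_ae (Eventually.of_forall fun t => ?_)
    simp only [ContinuousLinearMap.flip_apply, map_smul, TT]
    try rfl
  rw [h1]
  unfold bb
  rw [map_sub, map_smul, ML_one]
  rfl

theorem weak_stable (h0 : μ (Set.Icc (1:ℝ) 2)ᶜ = 0)
    (hd : ∀ h h' : ℝ → ℝ, (∀ x, HasDerivAt h (h' x) x) → Continuous h' →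
      Tendsto (fun t : ℝ => ∫ x, ((h x : ℝ) : ℂ) * Complex.exp (Complex.I * t * x) ∂μ)
        atTop (𝓝 0)) (f g : Lp ℂ 2 μ) :
    Tendsto (fun t : ℝ => inner ℂ (TT μ t f) g) atTop (𝓝 0) := by
  have hint : Integrable (fun x => inner ℂ (f x) (g x)) μ := L2.integrable_inner f g
  have h1 := tendsto_of_integrable h0 hd _ hint
  refine h1.congr fun t => ?_
  rw [L2.inner_def]
  have hae : ∀ᵐ x ∂μ, x ∈ Set.Icc (1:ℝ) 2 := by rw [ae_iff]; exact h0
  refine integral_congr_ae ?_
  filter_upwards [hae, ML_ae μ (Et t) f] with x hx hm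
  have h2 : (TT μ t f) x = Et t x * f x := hm
  rw [h2, Et_apply, clip_of_mem x hx]
  simp only [RCLike.inner_apply, map_mul, ← Complex.exp_conj]
  have h3 : (starRingEnd ℂ) ((t : ℂ) * -(Complex.I * (x : ℂ))) = Complex.I * t * x := by
    simp
    ring
  simp only [map_mul, map_neg, Complex.conj_I, Complex.conj_ofReal] at h3 ⊢
  rw [h3]
  ring

theorem not_stable (h0 : μ (Set.Icc (1:ℝ) 2)ᶜ = 0)
    (hc : ∀ k, (2 / 5 : ℝ) ≤ ∫ x, CC (nn k) x ∂μ) :
    ¬ ∀ f g : Lp ℂ 2 μ, Tendsto (fun n : ℕ => inner ℂ ((fun z : Lp ℂ 2 μ => z - (2 : ℂ) •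
              ∫ t in Set.Ioi (0 : ℝ), ((Real.exp (-t) : ℝ) : ℂ) • TT μ t z)^[n] f) g)
            atTop (𝓝 0) := by
  intro H
  let e0 : Lp ℂ 2 μ := BoundedContinuousFunction.toLp 2 μ ℂ (1 : BC)
  have he0 : (e0 : ℝ → ℂ) =ᵐ[μ] fun _ => 1 := by
    filter_upwards [BoundedContinuousFunction.coeFn_toLp (E := ℂ) 2 μ ℂ (1 : BC)] with x hx
    show (BoundedContinuousFunction.toLp 2 μ ℂ (1 : BC) : ℝ → ℂ) x = 1
    rw [hx]
    rfl
  have hae : ∀ᵐ x ∂μ, x ∈ Set.Icc (1:ℝ) 2 := by rw [ae_iff]; exact h0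
  have hiter : ∀ n : ℕ, ((fun z : Lp ℂ 2 μ => z - (2 : ℂ) •
              ∫ t in Set.Ioi (0 : ℝ), ((Real.exp (-t) : ℝ) : ℂ) • TT μ t z)^[n] e0) =
      ML μ (bb ^ n) e0 := by
    intro n
    have hfun : (fun z : Lp ℂ 2 μ => z - (2 : ℂ) •
              ∫ t in Set.Ioi (0 : ℝ), ((Real.exp (-t) : ℝ) : ℂ) • TT μ t z) = ⇑(ML μ bb) := by
      ext1 z
      exact cogen μ z
    rw [hfun, ML_pow, FunLike.coe_pow_eq_iterate]
  have hin : ∀ n : ℕ, (inner ℂ (ML μ (bb ^ n) e0) e0 : ℂ).re = ∫ x, CC n x ∂μ := by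
    intro n
    have h1 : (inner ℂ (ML μ (bb ^ n) e0) e0 : ℂ) = ∫ x, (starRingEnd ℂ) (vv x ^ n) ∂μ := by
      rw [L2.inner_def]
      refine integral_congr_ae ?_
      filter_upwards [hae, ML_ae μ (bb ^ n) e0, he0] with x hx h2 h3
      rw [h2, h3]
      have h4 : (bb ^ n : BC) x = vv x ^ n := by
        have : (bb ^ n : BC) x = (bb x) ^ n := rfl
        rw [this, bb_apply, clip_of_mem x hx]
      rw [h4]
      simp [RCLike.inner_apply]
    rw [h1, integral_conj, Complex.conj_re]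
    have h5 : Integrable (fun x => vv x ^ n) μ := by
      refine Integrable.mono' (integrable_const (1:ℝ)) (continuous_vv.pow n).aestronglyMeasurable
        (Eventually.of_forall fun x => ?_)
      rw [norm_pow, norm_vv, one_pow]
    exact (integral_re h5).symm
  have h1 := H e0 e0
  simp only [hiter] at h1
  have h2 := (Complex.continuous_re.tendsto _).comp h1
  simp only [Function.comp_def, hin, Complex.zero_re] at h2
  have h3 : Tendsto nn atTop atTop := tendsto_atTop_mono nn_ge tendsto_id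
  have h4 := h2.comp h3
  have h5 : (2 / 5 : ℝ) ≤ 0 := ge_of_tendsto' h4 hc
  norm_num at h5

end oper

end Pool.Agent.Helper146_RJ
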